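import Mathlib

/-!
# Fourier decomposition with respect to an operator of order five

`Y : ZMod 5 → R` is a homomorphism with `∑ Y j = 0`; an element `w` has type `l` if
`w * Y k = Y (l * k) * w`.
-/

set_option autoImplicit false

namespace Q6.FreeAct

variable {R : Type*} [Ring R]

/-- The standing assumptions: `Y j = y ^ j` with `1 + y + y ^ 2 + y ^ 3 + y ^ 4 = 0`, and no
`5`-torsion. -/
structure Five (Y : ZMod 5 → R) : Prop where
  zero : Y 0 = 1
  add : ∀ i j, Y (i + j) = Y i * Y j
  sum : Y 0 + Y 1 + Y 2 + Y 3 + Y 4 = 0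
  tf : ∀ r : R, 5 * r = 0 → r = 0

/-- `w` has type `l`. -/
def Typ (Y : ZMod 5 → R) (l : ZMod 5) (w : R) : Prop := ∀ k, w * Y k = Y (l * k) * w

theorem univ5 : (Finset.univ : Finset (ZMod 5)) = {0, 1, 2, 3, 4} := by decide

theorem sum5 (f : ZMod 5 → R) : ∑ j, f j = f 0 + f 1 + f 2 + f 3 + f 4 := by
  rw [univ5]
  rw [Finset.sum_insert (by decide), Finset.sum_insert (by decide), Finset.sum_insert (by decide),
    Finset.sum_insert (by decide), Finset.sum_singleton]
  abel

theorem Five.sum_mul {Y : ZMod 5 → R} (h : Five Y) (c : ZMod 5) (hc : c ≠ 0) :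
    ∑ j, Y (c * j) = 0 := by
  have hb : Function.Bijective (fun j : ZMod 5 => c * j) := by
    revert c; decide
  rw [Function.Bijective.sum_comp hb Y, sum5, h.sum]

theorem Five.sum_zero {Y : ZMod 5 → R} (h : Five Y) :
    ∑ j : ZMod 5, Y (0 * j) = 5 := by
  simp only [zero_mul, h.zero, sum5]
  norm_num

theorem Five.sum_if {Y : ZMod 5 → R} (h : Five Y) (c : ZMod 5) :
    ∑ j, Y (c * j) = if c = 0 then 5 else 0 := by
  split_ifs with hc
  · subst hc; exact h.sum_zero
  · exact h.sum_mul c hc

/-- inversion of the discrete Fourier transform -/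
theorem dft {Y : ZMod 5 → R} (h : Five Y) (m : ZMod 5 → R)
    (hm : ∀ j, ∑ k, Y (k * j) * m k = 0) (k : ZMod 5) : m k = 0 := by
  apply h.tf
  have h1 : ∑ j, Y (-k * j) * ∑ l, Y (l * j) * m l = 0 := by
    apply Finset.sum_eq_zero
    intro j _
    rw [hm, mul_zero]
  have h2 : ∑ j, Y (-k * j) * ∑ l, Y (l * j) * m l = ∑ l, (∑ j, Y ((l - k) * j)) * m l := by
    simp only [Finset.mul_sum, Finset.sum_mul]
    rw [Finset.sum_comm]
    refine Finset.sum_congr rfl fun l _ => Finset.sum_congr rfl fun j _ => ?_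
    rw [← mul_assoc, ← h.add]
    congr 2
    ring
  rw [h2] at h1
  simp only [h.sum_if, sub_eq_zero] at h1
  rw [← h1]
  simp

/-- separation of types -/
theorem sep {Y : ZMod 5 → R} (h : Five Y) (w : ZMod 5 → R) (hw : ∀ l, Typ Y l (w l))
    (h0 : ∑ l, w l = 0) (k : ZMod 5) : w k = 0 := by
  apply h.tf
  have h1 : ∑ j, Y (-k * j) * (∑ l, w l) * Y j = 0 := by
    apply Finset.sum_eq_zero
    intro j _
    rw [h0]; simp
  have h2 : ∑ j, Y (-k * j) * (∑ l, w l) * Y j = ∑ l, (∑ j, Y ((l - k) * j)) * w l := by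
    simp only [Finset.mul_sum, Finset.sum_mul]
    rw [Finset.sum_comm]
    refine Finset.sum_congr rfl fun l _ => Finset.sum_congr rfl fun j _ => ?_
    rw [mul_assoc, hw l j, ← mul_assoc, ← h.add]
    congr 2
    ring
  rw [h2] at h1
  simp only [h.sum_if, sub_eq_zero] at h1
  rw [← h1]
  simp

theorem Typ.add {Y : ZMod 5 → R} {l : ZMod 5} {v w : R} (hv : Typ Y l v) (hw : Typ Y l w) :
    Typ Y l (v + w) := by
  intro k; rw [add_mul, hv, hw, mul_add]

theorem Typ.mul {Y : ZMod 5 → R} {l m n : ZMod 5} {v w : R} (hv : Typ Y l v) (hw : Typ Y m w)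
    (hn : l * m = n) : Typ Y n (v * w) := by
  intro k
  rw [mul_assoc, hw, ← mul_assoc, hv, mul_assoc, ← mul_assoc l m k, hn]

theorem Typ.zero {Y : ZMod 5 → R} {l : ZMod 5} : Typ Y l 0 := by
  intro k; simp

theorem mulT {Y : ZMod 5 → R} (h : Five Y) {l m n : ZMod 5} {v w : R} (hv : Typ Y l v)
    (hw : Typ Y m w) (hn : l * (1 + m) = n) (j : ZMod 5) :
    v * Y j * (w * Y j) = Y (n * j) * (v * w) := by
  rw [hw, ← mul_assoc, mul_assoc v, ← h.add, hv, ← hn]
  rw [mul_assoc]
  congr 2
  ring

theorem mulU {Y : ZMod 5 → R} (h : Five Y) {l m n : ZMod 5} {v w : R} (hv : Typ Y l v)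
    (_hw : Typ Y m w) (hn : -1 * (1 + l) = n) (j : ZMod 5) :
    Y (-j) * v * (Y (-j) * w) = Y (n * j) * (v * w) := by
  rw [← mul_assoc, mul_assoc (Y (-j)), hv, ← mul_assoc, ← h.add, ← hn, mul_assoc]
  congr 2
  ring

theorem mulE {Y : ZMod 5 → R} (h : Five Y) {i l n : ZMod 5} {e v : R} (he : Typ Y 1 e)
    (hv : Typ Y l v) (hn : i + l = n) (j : ZMod 5) :
    Y (i * j) * e * (v * Y j) = Y (n * j) * (e * v) := by
  rw [hv, mul_assoc, ← mul_assoc e, he, mul_assoc, ← mul_assoc, ← h.add, ← hn]
  congr 2
  ring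

theorem mulF {Y : ZMod 5 → R} (h : Five Y) {i n : ZMod 5} {e v : R} (he : Typ Y 1 e)
    (hn : i - 1 = n) (j : ZMod 5) :
    Y (i * j) * e * (Y (-j) * v) = Y (n * j) * (e * v) := by
  rw [mul_assoc, ← mul_assoc e, he, mul_assoc, ← mul_assoc, ← h.add, ← hn]
  congr 2
  ring

section Relations

variable {Y : ZMod 5 → R} (h : Five Y) {a b c d a' b' c' d' E F G : R}
  (ha : Typ Y 1 a) (hb : Typ Y 4 b) (hc : Typ Y 2 c) (hd : Typ Y 3 d)
  (ha' : Typ Y 1 a') (hb' : Typ Y 4 b') (hc' : Typ Y 2 c') (hd' : Typ Y 3 d')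
  (hE : Typ Y 1 E) (hF : Typ Y 1 F) (hG : Typ Y 1 G)

include h ha hb hc hd in
theorem expX (j : ZMod 5) : (a + b + c + d) * Y j * ((a + b + c + d) * Y j) =
    Y (0 * j) * (a * b + b * b + c * b + d * b) +
    Y (1 * j) * (b * d + c * c + d * a) +
    Y (2 * j) * (a * a + b * c + d * d) +
    Y (3 * j) * (a * c + b * a + c * d) +
    Y (4 * j) * (a * d + c * a + d * c) := by
  have e11 := mulT h ha ha (show (1 : ZMod 5) * (1 + 1) = 2 by decide) j
  have e14 := mulT h ha hb (show (1 : ZMod 5) * (1 + 4) = 0 by decide) j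
  have e12 := mulT h ha hc (show (1 : ZMod 5) * (1 + 2) = 3 by decide) j
  have e13 := mulT h ha hd (show (1 : ZMod 5) * (1 + 3) = 4 by decide) j
  have e41 := mulT h hb ha (show (4 : ZMod 5) * (1 + 1) = 3 by decide) j
  have e44 := mulT h hb hb (show (4 : ZMod 5) * (1 + 4) = 0 by decide) j
  have e42 := mulT h hb hc (show (4 : ZMod 5) * (1 + 2) = 2 by decide) j
  have e43 := mulT h hb hd (show (4 : ZMod 5) * (1 + 3) = 1 by decide) j
  have e21 := mulT h hc ha (show (2 : ZMod 5) * (1 + 1) = 4 by decide) j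
  have e24 := mulT h hc hb (show (2 : ZMod 5) * (1 + 4) = 0 by decide) j
  have e22 := mulT h hc hc (show (2 : ZMod 5) * (1 + 2) = 1 by decide) j
  have e23 := mulT h hc hd (show (2 : ZMod 5) * (1 + 3) = 3 by decide) j
  have e31 := mulT h hd ha (show (3 : ZMod 5) * (1 + 1) = 1 by decide) j
  have e34 := mulT h hd hb (show (3 : ZMod 5) * (1 + 4) = 0 by decide) j
  have e32 := mulT h hd hc (show (3 : ZMod 5) * (1 + 2) = 4 by decide) j
  have e33 := mulT h hd hd (show (3 : ZMod 5) * (1 + 3) = 2 by decide) j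
  simp only [add_mul, mul_add, e11, e14, e12, e13, e41, e44, e42, e43, e21, e24, e22, e23, e31, e34, e32, e33]
  abel

include h ha' hb' hc' hd' in
theorem expU (j : ZMod 5) : Y (-j) * (a' + b' + c' + d') * (Y (-j) * (a' + b' + c' + d')) =
    Y (0 * j) * (b' * a' + b' * b' + b' * c' + b' * d') +
    Y (1 * j) * (d' * a' + d' * b' + d' * c' + d' * d') +
    Y (2 * j) * (c' * a' + c' * b' + c' * c' + c' * d') +
    Y (3 * j) * (a' * a' + a' * b' + a' * c' + a' * d') := by
  have e11 := mulU h ha' ha' (show (-1 : ZMod 5) * (1 + 1) = 3 by decide) j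
  have e14 := mulU h ha' hb' (show (-1 : ZMod 5) * (1 + 1) = 3 by decide) j
  have e12 := mulU h ha' hc' (show (-1 : ZMod 5) * (1 + 1) = 3 by decide) j
  have e13 := mulU h ha' hd' (show (-1 : ZMod 5) * (1 + 1) = 3 by decide) j
  have e41 := mulU h hb' ha' (show (-1 : ZMod 5) * (1 + 4) = 0 by decide) j
  have e44 := mulU h hb' hb' (show (-1 : ZMod 5) * (1 + 4) = 0 by decide) j
  have e42 := mulU h hb' hc' (show (-1 : ZMod 5) * (1 + 4) = 0 by decide) j
  have e43 := mulU h hb' hd' (show (-1 : ZMod 5) * (1 + 4) = 0 by decide) j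
  have e21 := mulU h hc' ha' (show (-1 : ZMod 5) * (1 + 2) = 2 by decide) j
  have e24 := mulU h hc' hb' (show (-1 : ZMod 5) * (1 + 2) = 2 by decide) j
  have e22 := mulU h hc' hc' (show (-1 : ZMod 5) * (1 + 2) = 2 by decide) j
  have e23 := mulU h hc' hd' (show (-1 : ZMod 5) * (1 + 2) = 2 by decide) j
  have e31 := mulU h hd' ha' (show (-1 : ZMod 5) * (1 + 3) = 1 by decide) j
  have e34 := mulU h hd' hb' (show (-1 : ZMod 5) * (1 + 3) = 1 by decide) j
  have e32 := mulU h hd' hc' (show (-1 : ZMod 5) * (1 + 3) = 1 by decide) j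
  have e33 := mulU h hd' hd' (show (-1 : ZMod 5) * (1 + 3) = 1 by decide) j
  simp only [add_mul, mul_add, e11, e14, e12, e13, e41, e44, e42, e43, e21, e24, e22, e23, e31, e34, e32, e33]
  abel

include h ha hb hc hd hE hF hG in
theorem expEX (j : ZMod 5) : (Y (0 * j) * G + Y (1 * j) * E + Y (4 * j) * E + Y (2 * j) * F + Y (3 * j) * F) *
    ((a + b + c + d) * Y j) =
    Y (0 * j) * (E * b + F * d + F * c + E * a) +
    Y (1 * j) * (G * a + F * b + F * d + E * c) +
    Y (2 * j) * (G * c + E * a + F * b + E * d) +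
    Y (3 * j) * (G * d + E * c + F * a + E * b) +
    Y (4 * j) * (G * b + E * d + F * c + F * a) := by
  have e01 := mulE h hG ha (show (0 : ZMod 5) + 1 = 1 by decide) j
  have e04 := mulE h hG hb (show (0 : ZMod 5) + 4 = 4 by decide) j
  have e02 := mulE h hG hc (show (0 : ZMod 5) + 2 = 2 by decide) j
  have e03 := mulE h hG hd (show (0 : ZMod 5) + 3 = 3 by decide) j
  have e11 := mulE h hE ha (show (1 : ZMod 5) + 1 = 2 by decide) j
  have e14 := mulE h hE hb (show (1 : ZMod 5) + 4 = 0 by decide) j
  have e12 := mulE h hE hc (show (1 : ZMod 5) + 2 = 3 by decide) j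
  have e13 := mulE h hE hd (show (1 : ZMod 5) + 3 = 4 by decide) j
  have e21 := mulE h hF ha (show (2 : ZMod 5) + 1 = 3 by decide) j
  have e24 := mulE h hF hb (show (2 : ZMod 5) + 4 = 1 by decide) j
  have e22 := mulE h hF hc (show (2 : ZMod 5) + 2 = 4 by decide) j
  have e23 := mulE h hF hd (show (2 : ZMod 5) + 3 = 0 by decide) j
  have e31 := mulE h hF ha (show (3 : ZMod 5) + 1 = 4 by decide) j
  have e34 := mulE h hF hb (show (3 : ZMod 5) + 4 = 2 by decide) j
  have e32 := mulE h hF hc (show (3 : ZMod 5) + 2 = 0 by decide) j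
  have e33 := mulE h hF hd (show (3 : ZMod 5) + 3 = 1 by decide) j
  have e41 := mulE h hE ha (show (4 : ZMod 5) + 1 = 0 by decide) j
  have e44 := mulE h hE hb (show (4 : ZMod 5) + 4 = 3 by decide) j
  have e42 := mulE h hE hc (show (4 : ZMod 5) + 2 = 1 by decide) j
  have e43 := mulE h hE hd (show (4 : ZMod 5) + 3 = 2 by decide) j
  simp only [add_mul, mul_add, e01, e04, e02, e03, e11, e14, e12, e13, e21, e24, e22, e23, e31, e34, e32, e33, e41, e44, e42, e43]
  abel

include h hE hF hG in
theorem expEU (j : ZMod 5) (w : R) : (Y (0 * j) * G + Y (1 * j) * E + Y (4 * j) * E + Y (2 * j) * F + Y (3 * j) * F) *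
    (Y (-j) * w) =
    Y (0 * j) * (E * w) +
    Y (1 * j) * (F * w) +
    Y (2 * j) * (F * w) +
    Y (3 * j) * (E * w) +
    Y (4 * j) * (G * w) := by
  have e0 := mulF h hG (show (0 : ZMod 5) - 1 = 4 by decide) j (v := w)
  have e1 := mulF h hE (show (1 : ZMod 5) - 1 = 0 by decide) j (v := w)
  have e2 := mulF h hF (show (2 : ZMod 5) - 1 = 1 by decide) j (v := w)
  have e3 := mulF h hF (show (3 : ZMod 5) - 1 = 2 by decide) j (v := w)
  have e4 := mulF h hE (show (4 : ZMod 5) - 1 = 3 by decide) j (v := w)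
  simp only [add_mul, e0, e1, e2, e3, e4]
  abel


/-- the relations: `TT k n` is the part of index `k` and type `n` -/
def TT (a b c d a' b' c' d' E F G : R) : ZMod 5 → ZMod 5 → R :=
  ![![0, 25 + E * a + E * a' + b * b + b' * b',
      F * c + E * c' + d * b + b' * d',
      F * d + E * d' + c * b + b' * c',
      E * b + E * b' + a * b + b' * a'],
    ![0, G * a + F * a' + d' * c',
      E * c + F * c' + b * d + d' * b',
      F * d + F * d' + d * a + d' * a',
      F * b + F * b' + c * c + d' * d'],
    ![0, E * a + F * a' + a * a + c' * d',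
      G * c + F * c' + c' * a',
      E * d + F * d' + b * c + c' * b',
      F * b + F * b' + d * d + c' * c'],
    ![0, F * a + E * a' + c * d + a' * a',
      E * c + E * c' + a * c + a' * c',
      G * d + E * d' + a' * d',
      E * b + E * b' + b * a + a' * b'],
    ![0, F * a + G * a' + d * c,
      F * c + G * c' + c * a,
      E * d + G * d' + a * d,
      G * b + G * b']]

theorem TT0 (a b c d a' b' c' d' E F G : R) : ∑ n, TT a b c d a' b' c' d' E F G 0 n =
    (25 + E * a + E * a' + b * b + b' * b') +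
    (F * c + E * c' + d * b + b' * d') +
    (F * d + E * d' + c * b + b' * c') +
    (E * b + E * b' + a * b + b' * a') := by
  rw [sum5]
  show (0 : R) + (25 + E * a + E * a' + b * b + b' * b') + (F * c + E * c' + d * b + b' * d') + (F * d + E * d' + c * b + b' * c') + (E * b + E * b' + a * b + b' * a') = _
  rw [zero_add]

theorem TT1 (a b c d a' b' c' d' E F G : R) : ∑ n, TT a b c d a' b' c' d' E F G 1 n =
    (G * a + F * a' + d' * c') +
    (E * c + F * c' + b * d + d' * b') +
    (F * d + F * d' + d * a + d' * a') +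
    (F * b + F * b' + c * c + d' * d') := by
  rw [sum5]
  show (0 : R) + (G * a + F * a' + d' * c') + (E * c + F * c' + b * d + d' * b') + (F * d + F * d' + d * a + d' * a') + (F * b + F * b' + c * c + d' * d') = _
  rw [zero_add]

theorem TT2 (a b c d a' b' c' d' E F G : R) : ∑ n, TT a b c d a' b' c' d' E F G 2 n =
    (E * a + F * a' + a * a + c' * d') +
    (G * c + F * c' + c' * a') +
    (E * d + F * d' + b * c + c' * b') +
    (F * b + F * b' + d * d + c' * c') := by
  rw [sum5]
  show (0 : R) + (E * a + F * a' + a * a + c' * d') + (G * c + F * c' + c' * a') + (E * d + F * d' + b * c + c' * b') + (F * b + F * b' + d * d + c' * c') = _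
  rw [zero_add]

theorem TT3 (a b c d a' b' c' d' E F G : R) : ∑ n, TT a b c d a' b' c' d' E F G 3 n =
    (F * a + E * a' + c * d + a' * a') +
    (E * c + E * c' + a * c + a' * c') +
    (G * d + E * d' + a' * d') +
    (E * b + E * b' + b * a + a' * b') := by
  rw [sum5]
  show (0 : R) + (F * a + E * a' + c * d + a' * a') + (E * c + E * c' + a * c + a' * c') + (G * d + E * d' + a' * d') + (E * b + E * b' + b * a + a' * b') = _
  rw [zero_add]

theorem TT4 (a b c d a' b' c' d' E F G : R) : ∑ n, TT a b c d a' b' c' d' E F G 4 n =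
    (F * a + G * a' + d * c) +
    (F * c + G * c' + c * a) +
    (E * d + G * d' + a * d) +
    (G * b + G * b') := by
  rw [sum5]
  show (0 : R) + (F * a + G * a' + d * c) + (F * c + G * c' + c * a) + (E * d + G * d' + a * d) + (G * b + G * b') = _
  rw [zero_add]

theorem Typ.num {Y : ZMod 5 → R} : Typ Y 1 (25 : R) := by
  intro k
  rw [one_mul]
  exact (Nat.cast_commute 25 (Y k)).eq

include h ha hb hc hd ha' hb' hc' hd' hE hF hG in
theorem relations
    (H : ∀ j, 25 + (Y (0 * j) * G + Y (1 * j) * E + Y (4 * j) * E + Y (2 * j) * F + Y (3 * j) * F) *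
      ((a + b + c + d) * Y j) + (a + b + c + d) * Y j * ((a + b + c + d) * Y j) +
      (Y (0 * j) * G + Y (1 * j) * E + Y (4 * j) * E + Y (2 * j) * F + Y (3 * j) * F) *
        (Y (-j) * (a' + b' + c' + d')) +
      Y (-j) * (a' + b' + c' + d') * (Y (-j) * (a' + b' + c' + d')) = 0) :
    25 + E * a + E * a' + b * b + b' * b' = 0 ∧
    F * c + E * c' + d * b + b' * d' = 0 ∧
    F * d + E * d' + c * b + b' * c' = 0 ∧
    E * b + E * b' + a * b + b' * a' = 0 ∧
    G * a + F * a' + d' * c' = 0 ∧
    E * c + F * c' + b * d + d' * b' = 0 ∧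
    F * d + F * d' + d * a + d' * a' = 0 ∧
    F * b + F * b' + c * c + d' * d' = 0 ∧
    E * a + F * a' + a * a + c' * d' = 0 ∧
    G * c + F * c' + c' * a' = 0 ∧
    E * d + F * d' + b * c + c' * b' = 0 ∧
    F * b + F * b' + d * d + c' * c' = 0 ∧
    F * a + E * a' + c * d + a' * a' = 0 ∧
    E * c + E * c' + a * c + a' * c' = 0 ∧
    G * d + E * d' + a' * d' = 0 ∧
    E * b + E * b' + b * a + a' * b' = 0 ∧
    F * a + G * a' + d * c = 0 ∧
    F * c + G * c' + c * a = 0 ∧
    E * d + G * d' + a * d = 0 ∧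
    G * b + G * b' = 0 := by
  have hT : ∀ k, ∑ n, TT a b c d a' b' c' d' E F G k n = 0 := by
    apply dft h
    intro j
    rw [← H j, expEX h ha hb hc hd hE hF hG, expX h ha hb hc hd, expEU h hE hF hG, expU h ha' hb' hc' hd']
    rw [sum5]
    rw [TT0, TT1, TT2, TT3, TT4]
    simp only [mul_add, zero_mul, h.zero, mul_zero, one_mul]
    abel
  have hTT : ∀ k n, Typ Y n (TT a b c d a' b' c' d' E F G k n) := by
    intro k n
    have h25 : Typ Y 1 (25 : R) := Typ.num
    have h0 : ∀ l, Typ Y l (0 : R) := fun l => Typ.zero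
    fin_cases k <;> fin_cases n
    · exact h0 0
    · show Typ Y 1 (25 + E * a + E * a' + b * b + b' * b')
      repeat' first | assumption | exact Typ.mul (by assumption) (by assumption) (by decide) | apply Typ.add
    · show Typ Y 2 (F * c + E * c' + d * b + b' * d')
      repeat' first | assumption | exact Typ.mul (by assumption) (by assumption) (by decide) | apply Typ.add
    · show Typ Y 3 (F * d + E * d' + c * b + b' * c')
      repeat' first | assumption | exact Typ.mul (by assumption) (by assumption) (by decide) | apply Typ.add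
    · show Typ Y 4 (E * b + E * b' + a * b + b' * a')
      repeat' first | assumption | exact Typ.mul (by assumption) (by assumption) (by decide) | apply Typ.add
    · exact h0 0
    · show Typ Y 1 (G * a + F * a' + d' * c')
      repeat' first | assumption | exact Typ.mul (by assumption) (by assumption) (by decide) | apply Typ.add
    · show Typ Y 2 (E * c + F * c' + b * d + d' * b')
      repeat' first | assumption | exact Typ.mul (by assumption) (by assumption) (by decide) | apply Typ.add
    · show Typ Y 3 (F * d + F * d' + d * a + d' * a')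
      repeat' first | assumption | exact Typ.mul (by assumption) (by assumption) (by decide) | apply Typ.add
    · show Typ Y 4 (F * b + F * b' + c * c + d' * d')
      repeat' first | assumption | exact Typ.mul (by assumption) (by assumption) (by decide) | apply Typ.add
    · exact h0 0
    · show Typ Y 1 (E * a + F * a' + a * a + c' * d')
      repeat' first | assumption | exact Typ.mul (by assumption) (by assumption) (by decide) | apply Typ.add
    · show Typ Y 2 (G * c + F * c' + c' * a')
      repeat' first | assumption | exact Typ.mul (by assumption) (by assumption) (by decide) | apply Typ.add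
    · show Typ Y 3 (E * d + F * d' + b * c + c' * b')
      repeat' first | assumption | exact Typ.mul (by assumption) (by assumption) (by decide) | apply Typ.add
    · show Typ Y 4 (F * b + F * b' + d * d + c' * c')
      repeat' first | assumption | exact Typ.mul (by assumption) (by assumption) (by decide) | apply Typ.add
    · exact h0 0
    · show Typ Y 1 (F * a + E * a' + c * d + a' * a')
      repeat' first | assumption | exact Typ.mul (by assumption) (by assumption) (by decide) | apply Typ.add
    · show Typ Y 2 (E * c + E * c' + a * c + a' * c')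
      repeat' first | assumption | exact Typ.mul (by assumption) (by assumption) (by decide) | apply Typ.add
    · show Typ Y 3 (G * d + E * d' + a' * d')
      repeat' first | assumption | exact Typ.mul (by assumption) (by assumption) (by decide) | apply Typ.add
    · show Typ Y 4 (E * b + E * b' + b * a + a' * b')
      repeat' first | assumption | exact Typ.mul (by assumption) (by assumption) (by decide) | apply Typ.add
    · exact h0 0
    · show Typ Y 1 (F * a + G * a' + d * c)
      repeat' first | assumption | exact Typ.mul (by assumption) (by assumption) (by decide) | apply Typ.add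
    · show Typ Y 2 (F * c + G * c' + c * a)
      repeat' first | assumption | exact Typ.mul (by assumption) (by assumption) (by decide) | apply Typ.add
    · show Typ Y 3 (E * d + G * d' + a * d)
      repeat' first | assumption | exact Typ.mul (by assumption) (by assumption) (by decide) | apply Typ.add
    · show Typ Y 4 (G * b + G * b')
      repeat' first | assumption | exact Typ.mul (by assumption) (by assumption) (by decide) | apply Typ.add
  have h1 := fun k => sep h _ (hTT k) (hT k)
  refine ⟨h1 0 1, h1 0 2, h1 0 3, h1 0 4, h1 1 1, h1 1 2, h1 1 3, h1 1 4, h1 2 1, h1 2 2, h1 2 3, h1 2 4, h1 3 1, h1 3 2, h1 3 3, h1 3 4, h1 4 1, h1 4 2, h1 4 3, h1 4 4⟩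

end Relations

end Q6.FreeAct
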